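import Pool.Agent.H917Z.GW.Defs

set_option autoImplicit false

open Filter Topology Set

namespace Pool.Agent.H917Z.GW

variable {X : Type*}

/-- monomial -/
noncomputable def mono (s : X → ℝ) (f : X →₀ ℕ) : ℝ := f.prod (fun y k => s y ^ k)

/-- unit cube -/
def Cube (s : X → ℝ) : Prop := ∀ x, 0 ≤ s x ∧ s x ≤ 1

lemma G_eq (μ : X → PMF (X →₀ ℕ)) (s : X → ℝ) (x : X) :
    G μ s x = ∑' f : X →₀ ℕ, (μ x f).toReal * mono s f := rfl

lemma mono_nonneg {s : X → ℝ} (hs : Cube s) (f : X →₀ ℕ) : 0 ≤ mono s f :=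
  Finset.prod_nonneg fun y _ => pow_nonneg (hs y).1 _

lemma mono_le_one {s : X → ℝ} (hs : Cube s) (f : X →₀ ℕ) : mono s f ≤ 1 :=
  Finset.prod_le_one (fun y _ => pow_nonneg (hs y).1 _) fun y _ => pow_le_one₀ (hs y).1 (hs y).2

lemma mono_le {s t : X → ℝ} (hs : Cube s) (h : s ≤ t) (f : X →₀ ℕ) : mono s f ≤ mono t f :=
  Finset.prod_le_prod (fun y _ => pow_nonneg (hs y).1 _) fun y _ =>
    pow_le_pow_left₀ (hs y).1 (h y) _

lemma mono_add (s : X → ℝ) (f g : X →₀ ℕ) : mono s (f + g) = mono s f * mono s g := by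
  classical
  unfold mono
  rw [Finsupp.prod_add_index']
  · intro a; simp
  · intro a b c; rw [pow_add]

lemma mono_zero (s : X → ℝ) : mono s 0 = 1 := by simp [mono]

lemma mono_single (s : X → ℝ) (x : X) : mono s (Finsupp.single x 1) = s x := by
  unfold mono
  rw [Finsupp.prod_single_index] <;> simp

lemma mono_mul (s t : X → ℝ) (f : X →₀ ℕ) : mono (s * t) f = mono s f * mono t f := by
  unfold mono Finsupp.prod
  rw [← Finset.prod_mul_distrib]
  simp [mul_pow]

lemma mono_one (f : X →₀ ℕ) : mono (1 : X → ℝ) f = 1 := by simp [mono, Finsupp.prod]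

lemma mono_sum {ι : Type*} (s : X → ℝ) (T : Finset ι) (g : ι → X →₀ ℕ) :
    mono s (∑ i ∈ T, g i) = ∏ i ∈ T, mono s (g i) := by
  classical
  induction T using Finset.induction_on with
  | empty => simp [mono_zero]
  | insert a T ha ih => rw [Finset.sum_insert ha, Finset.prod_insert ha, mono_add, ih]

lemma mono_tendsto {ι : Type*} {L : Filter ι} {s : ι → X → ℝ} {t : X → ℝ}
    (h : ∀ y, Tendsto (fun k => s k y) L (𝓝 (t y))) (f : X →₀ ℕ) :
    Tendsto (fun k => mono (s k) f) L (𝓝 (mono t f)) := by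
  unfold mono Finsupp.prod
  exact tendsto_finsetProd _ fun y _ => (h y).pow _

lemma hasSum_w (p : PMF (X →₀ ℕ)) : HasSum (fun f => (p f).toReal) 1 := by
  have h := ENNReal.hasSum_toReal (f := fun f => p f) (by rw [p.tsum_coe]; simp)
  rw [← ENNReal.tsum_toReal_eq (fun f => p.apply_ne_top f), p.tsum_coe] at h
  simpa using h

lemma summable_w (p : PMF (X →₀ ℕ)) {g : (X →₀ ℕ) → ℝ} (h0 : ∀ f, 0 ≤ g f) (h1 : ∀ f, g f ≤ 1) :
    Summable (fun f => (p f).toReal * g f) :=
  Summable.of_nonneg_of_le (fun f => mul_nonneg ENNReal.toReal_nonneg (h0 f))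
    (fun f => mul_le_of_le_one_right ENNReal.toReal_nonneg (h1 f)) (hasSum_w p).summable

lemma G_cube (μ : X → PMF (X →₀ ℕ)) {s : X → ℝ} (hs : Cube s) : Cube (G μ s) := by
  intro x
  refine ⟨tsum_nonneg fun f => mul_nonneg ENNReal.toReal_nonneg (mono_nonneg hs f), ?_⟩
  rw [G_eq, ← (hasSum_w (μ x)).tsum_eq]
  exact (summable_w (μ x) (mono_nonneg hs) (mono_le_one hs)).tsum_le_tsum
    (fun f => mul_le_of_le_one_right ENNReal.toReal_nonneg (mono_le_one hs f))
    (hasSum_w (μ x)).summable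

lemma G_mono (μ : X → PMF (X →₀ ℕ)) {s t : X → ℝ} (hs : Cube s) (ht : Cube t) (h : s ≤ t) :
    G μ s ≤ G μ t := by
  intro x
  exact (summable_w (μ x) (mono_nonneg hs) (mono_le_one hs)).tsum_le_tsum
    (fun f => mul_le_mul_of_nonneg_left (mono_le hs h f) ENNReal.toReal_nonneg)
    (summable_w (μ x) (mono_nonneg ht) (mono_le_one ht))

lemma G_tendsto (μ : X → PMF (X →₀ ℕ)) {ι : Type*} {L : Filter ι} {s : ι → X → ℝ} {t : X → ℝ}
    (hs : ∀ k, Cube (s k)) (h : ∀ y, Tendsto (fun k => s k y) L (𝓝 (t y))) (x : X) :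
    Tendsto (fun k => G μ (s k) x) L (𝓝 (G μ t x)) := by
  simp only [G_eq]
  refine tendsto_tsum_of_dominated_convergence (hasSum_w (μ x)).summable
    (fun f => (mono_tendsto h f).const_mul _) (Eventually.of_forall fun k f => ?_)
  rw [Real.norm_of_nonneg (mul_nonneg ENNReal.toReal_nonneg (mono_nonneg (hs k) f))]
  exact mul_le_of_le_one_right ENNReal.toReal_nonneg (mono_le_one (hs k) f)

lemma cube_zero : Cube (0 : X → ℝ) := fun _ => ⟨le_rfl, zero_le_one⟩

lemma iter_cube (μ : X → PMF (X →₀ ℕ)) {s : X → ℝ} (hs : Cube s) (n : ℕ) :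
    Cube ((G μ)^[n] s) := by
  induction n with
  | zero => exact hs
  | succ n ih => rw [Function.iterate_succ_apply']; exact G_cube μ ih

lemma iter_mono (μ : X → PMF (X →₀ ℕ)) {s t : X → ℝ} (hs : Cube s) (ht : Cube t) (h : s ≤ t)
    (n : ℕ) : (G μ)^[n] s ≤ (G μ)^[n] t := by
  induction n with
  | zero => exact h
  | succ n ih =>
    rw [Function.iterate_succ_apply', Function.iterate_succ_apply']
    exact G_mono μ (iter_cube μ hs n) (iter_cube μ ht n) ih

lemma iter_le (μ : X → PMF (X →₀ ℕ)) {m : X → ℝ} (hm : Cube m) (h : G μ m ≤ m) (n : ℕ) :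
    (G μ)^[n] m ≤ m := by
  induction n with
  | zero => exact le_rfl
  | succ n ih =>
    rw [Function.iterate_succ_apply']
    exact (G_mono μ (iter_cube μ hm n) hm ih).trans h

/-- monotone, convex, continuous functions `[0,1] → [0,1]` -/
structure Nice (φ : ℝ → ℝ) : Prop where
  mon : MonotoneOn φ (Icc 0 1)
  cvx : ConvexOn ℝ (Icc 0 1) φ
  cont : ContinuousOn φ (Icc 0 1)
  nn : ∀ θ ∈ Icc (0 : ℝ) 1, 0 ≤ φ θ
  le1 : ∀ θ ∈ Icc (0 : ℝ) 1, φ θ ≤ 1

lemma Nice.const {c : ℝ} (h0 : 0 ≤ c) (h1 : c ≤ 1) : Nice (fun _ => c) :=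
  ⟨fun _ _ _ _ _ => le_rfl, convexOn_const _ (convex_Icc _ _), continuousOn_const,
    fun _ _ => h0, fun _ _ => h1⟩

lemma Nice.id : Nice (fun θ => θ) :=
  ⟨fun _ _ _ _ h => h, convexOn_id (convex_Icc _ _), continuousOn_id,
    fun _ h => h.1, fun _ h => h.2⟩

lemma Nice.mul {φ ψ : ℝ → ℝ} (h : Nice φ) (k : Nice ψ) : Nice (fun θ => φ θ * ψ θ) := by
  refine ⟨?_, ?_, h.cont.mul k.cont, fun θ hθ => mul_nonneg (h.nn θ hθ) (k.nn θ hθ),
    fun θ hθ => mul_le_one₀ (h.le1 θ hθ) (k.nn θ hθ) (k.le1 θ hθ)⟩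
  · intro a ha b hb hab
    exact mul_le_mul (h.mon ha hb hab) (k.mon ha hb hab) (k.nn a ha) (h.nn b hb)
  · exact h.cvx.mul k.cvx (fun θ hθ => h.nn θ hθ) (fun θ hθ => k.nn θ hθ)
      (h.mon.monovaryOn k.mon)

lemma Nice.pow {φ : ℝ → ℝ} (h : Nice φ) (n : ℕ) : Nice (fun θ => φ θ ^ n) := by
  induction n with
  | zero => simpa using Nice.const zero_le_one le_rfl
  | succ n ih => simpa [pow_succ] using ih.mul h

lemma Nice.prod {ι : Type*} (T : Finset ι) {φ : ι → ℝ → ℝ} (h : ∀ i, Nice (φ i)) :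
    Nice (fun θ => ∏ i ∈ T, φ i θ) := by
  classical
  induction T using Finset.induction_on with
  | empty => simpa using Nice.const zero_le_one le_rfl
  | insert a T ha ih => simpa [Finset.prod_insert ha] using (h a).mul ih

lemma Nice.G (μ : X → PMF (X →₀ ℕ)) {s : ℝ → X → ℝ} (h : ∀ y, Nice (fun θ => s θ y)) (x : X) :
    Nice (fun θ => G μ (s θ) x) := by
  have hc : ∀ θ ∈ Icc (0 : ℝ) 1, Cube (s θ) := fun θ hθ y => ⟨(h y).nn θ hθ, (h y).le1 θ hθ⟩
  have hm : ∀ f, Nice (fun θ => mono (s θ) f) := fun f =>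
    Nice.prod f.support (φ := fun y θ => s θ y ^ f y) fun y => (h y).pow _
  have hsum : ∀ θ ∈ Icc (0 : ℝ) 1, Summable (fun f => (μ x f).toReal * mono (s θ) f) :=
    fun θ hθ => summable_w (μ x) (mono_nonneg (hc θ hθ)) (mono_le_one (hc θ hθ))
  refine ⟨?_, ⟨convex_Icc _ _, ?_⟩, ?_, fun θ hθ => (G_cube μ (hc θ hθ) x).1,
    fun θ hθ => (G_cube μ (hc θ hθ) x).2⟩
  · intro a ha b hb hab
    exact G_mono μ (hc a ha) (hc b hb) (fun y => (h y).mon ha hb hab) x
  · intro a ha b hb u v hu hv huv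
    have hab : u • a + v • b ∈ Icc (0 : ℝ) 1 := convex_Icc _ _ ha hb hu hv huv
    simp only [G_eq, smul_eq_mul] at hab ⊢
    rw [← tsum_mul_left, ← tsum_mul_left,
      ← ((hsum a ha).mul_left u).tsum_add ((hsum b hb).mul_left v)]
    refine (hsum _ hab).tsum_le_tsum (fun f => ?_)
      (((hsum a ha).mul_left u).add ((hsum b hb).mul_left v))
    have := (hm f).cvx.2 ha hb hu hv huv
    simp only [smul_eq_mul] at this
    have h2 := mul_le_mul_of_nonneg_left this (ENNReal.toReal_nonneg (a := μ x f))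
    linarith
  · simp only [G_eq]
    refine continuousOn_tsum (fun f => continuousOn_const.mul (hm f).cont)
      (hasSum_w (μ x)).summable (fun f θ hθ => ?_)
    rw [Real.norm_of_nonneg (mul_nonneg ENNReal.toReal_nonneg (mono_nonneg (hc θ hθ) f))]
    exact mul_le_of_le_one_right ENNReal.toReal_nonneg (mono_le_one (hc θ hθ) f)

/-- an increasing limit of nice functions is continuous -/
lemma cont_of_sup {φ : ℕ → ℝ → ℝ} {ψ : ℝ → ℝ} (h : ∀ n, Nice (φ n))
    (hle : ∀ n, ∀ θ ∈ Icc (0 : ℝ) 1, φ n θ ≤ ψ θ)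
    (hl : ∀ θ ∈ Icc (0 : ℝ) 1, Tendsto (fun n => φ n θ) atTop (𝓝 (ψ θ))) :
    ContinuousOn ψ (Icc 0 1) := by
  have hmon : MonotoneOn ψ (Icc 0 1) := fun a ha b hb hab =>
    le_of_tendsto_of_tendsto' (hl a ha) (hl b hb) fun n => (h n).mon ha hb hab
  have h1 : (1 : ℝ) ∈ Icc (0 : ℝ) 1 := ⟨zero_le_one, le_rfl⟩
  have hle1 : ψ 1 ≤ 1 := le_of_tendsto' (hl 1 h1) fun n => (h n).le1 1 h1
  have hnn : ∀ θ ∈ Icc (0 : ℝ) 1, 0 ≤ ψ θ := fun θ hθ => ((h 0).nn θ hθ).trans (hle 0 θ hθ)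
  intro a ha
  rw [ContinuousWithinAt, tendsto_order]
  constructor
  · intro c hc
    obtain ⟨n, hn⟩ := ((hl a ha).eventually (lt_mem_nhds hc)).exists
    have := ((h n).cont a ha).eventually (lt_mem_nhds hn)
    filter_upwards [this, self_mem_nhdsWithin] with θ h1 h2
    exact h1.trans_le (hle n θ h2)
  · intro c hc
    rcases eq_or_lt_of_le ha.2 with h2 | h2
    · filter_upwards [self_mem_nhdsWithin] with θ hθ
      exact (hmon hθ ha (h2 ▸ hθ.2)).trans_lt hc
    · have key : ∀ θ ∈ Icc (0 : ℝ) 1, a ≤ θ → ψ θ ≤ ψ a + (θ - a) / (1 - a) := by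
        intro θ hθ haθ
        have hpos : 0 < 1 - a := by linarith
        set v := (θ - a) / (1 - a) with hv
        have hv0 : 0 ≤ v := div_nonneg (by linarith) hpos.le
        have hv1 : v ≤ 1 := by rw [hv, div_le_one hpos]; linarith [hθ.2]
        have hθe : θ = (1 - v) * a + v * 1 := by rw [hv]; field_simp; ring
        refine le_of_tendsto' (hl θ hθ) fun n => ?_
        have := (h n).cvx.2 ha h1 (sub_nonneg.2 hv1) hv0 (by ring)
        simp only [smul_eq_mul] at this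
        rw [← hθe] at this
        have e1 := hle n a ha
        have e2 := (h n).le1 1 h1
        have e3 := (h n).nn a ha
        nlinarith
      have ht : Tendsto (fun θ : ℝ => ψ a + (θ - a) / (1 - a)) (𝓝[Icc 0 1] a) (𝓝 (ψ a)) := by
        have : Continuous (fun θ : ℝ => ψ a + (θ - a) / (1 - a)) := by fun_prop
        have h3 := this.tendsto a
        simp only [sub_self, zero_div, add_zero] at h3
        exact h3.mono_left nhdsWithin_le_nhds
      filter_upwards [ht.eventually (gt_mem_nhds hc), self_mem_nhdsWithin] with θ h3 hθ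
      rcases le_total a θ with h4 | h4
      · exact (key θ hθ h4).trans_lt h3
      · exact (hmon hθ ha h4).trans_lt hc

open Classical in
/-- the generating function on `F`, frozen at `θ • t` outside `F` -/
noncomputable def Phi (μ : X → PMF (X →₀ ℕ)) (t : X → ℝ) (F : Set X) (θ : ℝ) (z : X → ℝ) :
    X → ℝ := fun y => if y ∈ F then G μ z y else θ * t y

open Classical in
/-- indicator of the complement of `F` -/
noncomputable def chi (F : Set X) : X → ℝ := fun y => if y ∈ F then 0 else 1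

lemma chi_cube (F : Set X) : Cube (chi F) := by
  intro y; unfold chi; split_ifs <;> simp

lemma Cube.mul {s t : X → ℝ} (hs : Cube s) (ht : Cube t) : Cube (s * t) := fun y =>
  ⟨mul_nonneg (hs y).1 (ht y).1, mul_le_one₀ (hs y).2 (ht y).1 (ht y).2⟩

lemma local_fixed (μ : X → PMF (X →₀ ℕ)) {t : X → ℝ} (ht : Cube t) (hG : G μ t ≤ t) (F : Set X)
    (x₀ : X) (hF : Tendsto (fun n => (G μ)^[n] (chi F * t) x₀) atTop (𝓝 (t x₀))) {c : ℝ}
    (hc0 : ∀ n, (G μ)^[n] 0 x₀ ≤ c) (hc1 : c ≤ t x₀) :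
    ∃ m : X → ℝ, Cube m ∧ m ≤ t ∧ m x₀ = c ∧ ∀ y ∈ F, G μ m y = m y := by
  set z : ℝ → ℕ → X → ℝ := fun θ n => (Phi μ t F θ)^[n] 0 with hz
  have hs : ∀ θ n, z θ (n + 1) = Phi μ t F θ (z θ n) := fun θ n =>
    Function.iterate_succ_apply' _ _ _
  have hnice : ∀ n y, Nice (fun θ => z θ n y) := by
    intro n
    induction n with
    | zero => intro y; exact Nice.const le_rfl zero_le_one
    | succ n ih =>
      intro y
      simp only [hs, Phi]
      by_cases hy : y ∈ F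
      · simp only [hy, if_true]; exact Nice.G μ ih y
      · simp only [hy, if_false]; exact Nice.id.mul (Nice.const (ht y).1 (ht y).2)
  have hcube : ∀ θ ∈ Icc (0 : ℝ) 1, ∀ n, Cube (z θ n) := fun θ hθ n y =>
    ⟨(hnice n y).nn θ hθ, (hnice n y).le1 θ hθ⟩
  have hstep : ∀ θ ∈ Icc (0 : ℝ) 1, ∀ n, z θ n ≤ z θ (n + 1) := by
    intro θ hθ n
    induction n with
    | zero => intro y; exact (hcube θ hθ 1 y).1
    | succ n ih =>
      intro y
      rw [hs θ (n + 1), hs θ n]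
      rw [hs θ n] at ih
      unfold Phi
      by_cases hy : y ∈ F
      · simp only [hy, if_true]
        have := hcube θ hθ (n + 1)
        rw [hs θ n] at this
        exact G_mono μ (hcube θ hθ n) this ih y
      · simp only [hy, if_false]; exact le_rfl
  have hlet : ∀ θ ∈ Icc (0 : ℝ) 1, ∀ n, z θ n ≤ t := by
    intro θ hθ n
    induction n with
    | zero => intro y; exact (ht y).1
    | succ n ih =>
      intro y
      rw [hs θ n]
      unfold Phi
      by_cases hy : y ∈ F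
      · simp only [hy, if_true]
        exact (G_mono μ (hcube θ hθ n) ht ih y).trans (hG y)
      · simp only [hy, if_false]; exact mul_le_of_le_one_left (ht y).1 hθ.2
  set m : ℝ → X → ℝ := fun θ y => ⨆ n, z θ n y with hm
  have hbdd : ∀ θ ∈ Icc (0 : ℝ) 1, ∀ y, BddAbove (range fun n => z θ n y) := fun θ hθ y =>
    ⟨1, by rintro _ ⟨n, rfl⟩; exact (hcube θ hθ n y).2⟩
  have hlim : ∀ θ ∈ Icc (0 : ℝ) 1, ∀ y, Tendsto (fun n => z θ n y) atTop (𝓝 (m θ y)) :=
    fun θ hθ y => tendsto_atTop_ciSup (monotone_nat_of_le_succ fun n => hstep θ hθ n y)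
      (hbdd θ hθ y)
  have hzm : ∀ θ ∈ Icc (0 : ℝ) 1, ∀ n y, z θ n y ≤ m θ y := fun θ hθ n y =>
    le_ciSup (hbdd θ hθ y) n
  have hmt : ∀ θ ∈ Icc (0 : ℝ) 1, m θ ≤ t := fun θ hθ y =>
    le_of_tendsto' (hlim θ hθ y) fun n => hlet θ hθ n y
  have hmc : ∀ θ ∈ Icc (0 : ℝ) 1, Cube (m θ) := fun θ hθ y =>
    ⟨(hcube θ hθ 0 y).1.trans (hzm θ hθ 0 y), (hmt θ hθ y).trans (ht y).2⟩
  have hfix : ∀ θ ∈ Icc (0 : ℝ) 1, ∀ y, Phi μ t F θ (m θ) y = m θ y := by
    intro θ hθ y
    have h1 : Tendsto (fun n => z θ (n + 1) y) atTop (𝓝 (m θ y)) :=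
      (hlim θ hθ y).comp (tendsto_add_atTop_nat 1)
    have h2 : Tendsto (fun n => z θ (n + 1) y) atTop (𝓝 (Phi μ t F θ (m θ) y)) := by
      simp only [hs, Phi]
      by_cases hy : y ∈ F
      · simp only [hy, if_true]; exact G_tendsto μ (hcube θ hθ) (hlim θ hθ) y
      · simp only [hy, if_false]; exact tendsto_const_nhds
    exact tendsto_nhds_unique h2 h1
  have hcont : ContinuousOn (fun θ => m θ x₀) (Icc 0 1) :=
    cont_of_sup (fun n => hnice n x₀) (fun n θ hθ => hzm θ hθ n x₀) fun θ hθ => hlim θ hθ x₀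
  have h0 : (0 : ℝ) ∈ Icc (0 : ℝ) 1 := ⟨le_rfl, zero_le_one⟩
  have h1 : (1 : ℝ) ∈ Icc (0 : ℝ) 1 := ⟨zero_le_one, le_rfl⟩
  have hlo : m 0 x₀ ≤ c := by
    refine le_of_tendsto' (hlim 0 h0 x₀) fun n => le_trans ?_ (hc0 n)
    have : ∀ n, z 0 n ≤ (G μ)^[n] 0 := by
      intro n
      induction n with
      | zero => exact le_rfl
      | succ n ih =>
        intro y
        rw [hs 0 n, Function.iterate_succ_apply']
        unfold Phi
        by_cases hy : y ∈ F
        · simp only [hy, if_true]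
          exact G_mono μ (hcube 0 h0 n) (iter_cube μ cube_zero n) ih y
        · simp only [hy, if_false, zero_mul]
          exact (G_cube μ (iter_cube μ cube_zero n) y).1
    exact this n x₀
  have hhi : c ≤ m 1 x₀ := by
    refine hc1.trans (le_of_tendsto' hF fun n => ?_)
    have hsup : G μ (m 1) ≤ m 1 := by
      intro y
      have := hfix 1 h1 y
      unfold Phi at this
      by_cases hy : y ∈ F
      · simp only [hy, if_true] at this; exact this.le
      · simp only [hy, if_false, one_mul] at this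
        rw [← this]
        exact (G_mono μ (hmc 1 h1) ht (hmt 1 h1) y).trans (hG y)
    have hle : chi F * t ≤ m 1 := by
      intro y
      have := hfix 1 h1 y
      unfold Phi at this
      by_cases hy : y ∈ F
      · simp only [Pi.mul_apply, chi, hy, if_true, zero_mul]; exact (hmc 1 h1 y).1
      · simp only [hy, if_false, one_mul] at this
        simp only [Pi.mul_apply, chi, hy, if_false, one_mul]; exact this.le
    exact (iter_mono μ ((chi_cube F).mul ht) (hmc 1 h1) hle n x₀).trans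
      (iter_le μ (hmc 1 h1) hsup n x₀)
  obtain ⟨θ, hθ, hθc⟩ := intermediate_value_Icc zero_le_one hcont ⟨hlo, hhi⟩
  refine ⟨m θ, hmc θ hθ, hmt θ hθ, hθc, fun y hy => ?_⟩
  have := hfix θ hθ y
  unfold Phi at this
  simpa only [hy, if_true] using this

lemma global_fixed (μ : X → PMF (X →₀ ℕ)) {t : X → ℝ} (ht : Cube t) (hG : G μ t ≤ t)
    (x₀ : X) (hF : ∀ F : Finset X,
      Tendsto (fun n => (G μ)^[n] (chi (F : Set X) * t) x₀) atTop (𝓝 (t x₀))) {c : ℝ}
    (hc0 : ∀ n, (G μ)^[n] 0 x₀ ≤ c) (hc1 : c ≤ t x₀) :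
    ∃ s : X → ℝ, Cube s ∧ s ≤ t ∧ s x₀ = c ∧ G μ s = s := by
  classical
  choose m hm using fun F : Finset X => local_fixed μ ht hG (F : Set X) x₀ (hF F) hc0 hc1
  let U : Ultrafilter (Finset X) := Ultrafilter.of atTop
  have hU : (U : Filter (Finset X)) ≤ atTop := Ultrafilter.of_le _
  have hex : ∀ y, ∃ a ∈ Icc (0 : ℝ) 1, Tendsto (fun F => m F y) U (𝓝 a) := by
    intro y
    obtain ⟨a, ha, h⟩ := (isCompact_Icc (a := (0 : ℝ)) (b := 1)).ultrafilter_le_nhds
      (U.map fun F => m F y) (by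
        rw [Ultrafilter.coe_map, le_principal_iff, mem_map]
        exact Eventually.of_forall fun F => ((hm F).1 y))
    exact ⟨a, ha, h⟩
  choose s hs1 hs2 using hex
  refine ⟨s, fun y => hs1 y, fun y => le_of_tendsto' (hs2 y) fun F => (hm F).2.1 y, ?_, ?_⟩
  · refine tendsto_nhds_unique (hs2 x₀) ?_
    simp only [fun F => (hm F).2.2.1]
    exact tendsto_const_nhds
  · funext y
    refine tendsto_nhds_unique (G_tendsto μ (fun F => (hm F).1) hs2 y) ?_
    refine (hs2 y).congr' ?_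
    have : ∀ᶠ F in (U : Filter (Finset X)), y ∈ F :=
      hU ((eventually_ge_atTop ({y} : Finset X)).mono fun F hF => hF (Finset.mem_singleton_self y))
    filter_upwards [this] with F hF
    exact ((hm F).2.2.2 y hF).symm

end Pool.Agent.H917Z.GW
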