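import Mathlib

/-!
# Multitype Galton-Watson processes with countably many types: definitions
-/

set_option autoImplicit false

open MeasureTheory

namespace Pool.Agent.H917Z.GW

variable {X : Type*}

/-- The generating function `G(s)_x = ∑_f μ_x(f) ∏_y s_y ^ f(y)`. -/
noncomputable def G (μ : X → PMF (X →₀ ℕ)) (s : X → ℝ) (x : X) : ℝ :=
  ∑' f : X →₀ ℕ, (μ x f).toReal * f.prod (fun y k => s y ^ k)

/-- The population vector of generation `n`, started from one individual of type `x`;
`ξ (n, y, i)` is the offspring vector of the `i`-th individual of type `y` of generation `n`. -/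
noncomputable def pop (ξ : ℕ × X × ℕ → (X →₀ ℕ)) (x : X) : ℕ → (X →₀ ℕ)
  | 0 => Finsupp.single x 1
  | n + 1 => (pop ξ x n).sum (fun y k => ∑ i ∈ Finset.range k, ξ (n, y, i))

variable [MeasurableSpace (X →₀ ℕ)]

/-- The law of the offspring vectors: independent, and `ξ (n, y, i)` has law `μ y`. -/
noncomputable def law (μ : X → PMF (X →₀ ℕ)) : Measure (ℕ × X × ℕ → (X →₀ ℕ)) :=
  Measure.infinitePi (fun j => (μ j.2.1).toMeasure)

/-- Probability of global extinction: the whole population eventually dies out. -/
noncomputable def q (μ : X → PMF (X →₀ ℕ)) (x : X) : ℝ :=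
  (law μ).real {ξ | ∃ N, ∀ n, N ≤ n → pop ξ x n = 0}

/-- Probability of partial extinction: every type is present in only finitely many generations. -/
noncomputable def qt (μ : X → PMF (X →₀ ℕ)) (x : X) : ℝ :=
  (law μ).real {ξ | ∀ y, {n | pop ξ x n y ≠ 0}.Finite}

end Pool.Agent.H917Z.GW
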