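import Pool.Agent.H917Z.GW.Anal

set_option autoImplicit false
set_option linter.unusedSectionVars false

open Filter Topology Set MeasureTheory ProbabilityTheory

namespace Pool.Agent.H917Z.GW

variable {X : Type*}

/-- total offspring of a population `z` living in generation `n` -/
noncomputable def step (n : ℕ) (z : X →₀ ℕ) (ξ : ℕ × X × ℕ → (X →₀ ℕ)) : X →₀ ℕ :=
  z.sum (fun y k => ∑ i ∈ Finset.range k, ξ (n, y, i))

lemma pop_succ (ξ : ℕ × X × ℕ → (X →₀ ℕ)) (x : X) (n : ℕ) :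
    pop ξ x (n + 1) = step n (pop ξ x n) ξ := rfl

lemma pop_zero (ξ : ℕ × X × ℕ → (X →₀ ℕ)) (x : X) : pop ξ x 0 = Finsupp.single x 1 := rfl

/-- trajectory from time `n` on -/
noncomputable def traj (x : X) (n : ℕ) (ξ : ℕ × X × ℕ → (X →₀ ℕ)) : ℕ → (X →₀ ℕ) :=
  fun j => pop ξ x (n + j)

variable [MeasurableSpace (X →₀ ℕ)]

/-- sigma-algebra generated by the coordinates in `S` -/
@[reducible] def sig (S : Set (ℕ × X × ℕ)) : MeasurableSpace (ℕ × X × ℕ → (X →₀ ℕ)) :=
  ⨆ j ∈ S, MeasurableSpace.comap (fun ξ => ξ j) inferInstance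

lemma sig_le (S : Set (ℕ × X × ℕ)) : sig S ≤ MeasurableSpace.pi :=
  iSup₂_le fun j _ => (measurable_pi_apply j).comap_le

lemma sig_mono {S T : Set (ℕ × X × ℕ)} (h : S ⊆ T) : sig S ≤ sig T :=
  biSup_mono h

lemma meas_eval {S : Set (ℕ × X × ℕ)} {j : ℕ × X × ℕ} (hj : j ∈ S) :
    Measurable[sig S] (fun ξ : ℕ × X × ℕ → (X →₀ ℕ) => ξ j) :=
  Measurable.of_comap_le (le_iSup₂_of_le (f := fun j (_ : j ∈ S) =>
    MeasurableSpace.comap (fun ξ : ℕ × X × ℕ → (X →₀ ℕ) => ξ j) inferInstance) j hj le_rfl)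

instance law_prob (μ : X → PMF (X →₀ ℕ)) : IsProbabilityMeasure (law μ) := by
  unfold law; infer_instance

lemma law_indep (μ : X → PMF (X →₀ ℕ)) :
    iIndepFun (fun (j : ℕ × X × ℕ) (ξ : ℕ × X × ℕ → (X →₀ ℕ)) => ξ j) (law μ) :=
  iIndepFun_infinitePi (X := fun _ ω => ω) (fun _ => measurable_id)

lemma sig_indep (μ : X → PMF (X →₀ ℕ)) {S T : Set (ℕ × X × ℕ)} (h : Disjoint S T) :
    Indep (sig S) (sig T) (law μ) :=
  indep_iSup_of_disjoint (fun j => (measurable_pi_apply j).comap_le) (law_indep μ).iIndep h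

variable [Countable X] [MeasurableSingletonClass (X →₀ ℕ)]

lemma meas_step {S : Set (ℕ × X × ℕ)} {n : ℕ} (hS : ∀ y i, (n, y, i) ∈ S) (z : X →₀ ℕ) :
    Measurable[sig S] (step n z) := by
  unfold step Finsupp.sum
  let _ := sig S
  exact Finset.measurable_fun_sum _ fun y _ => Finset.measurable_fun_sum _ fun i _ =>
    meas_eval (hS y i)

lemma meas_pop (x : X) (n : ℕ) :
    Measurable[sig {j | j.1 < n}] (fun ξ : ℕ × X × ℕ → (X →₀ ℕ) => pop ξ x n) := by
  induction n with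
  | zero => exact measurable_const
  | succ n ih =>
    have ih' : Measurable[sig {j | j.1 < n + 1}] (fun ξ : ℕ × X × ℕ → (X →₀ ℕ) => pop ξ x n) :=
      ih.mono (sig_mono fun j (hj : j.1 < n) => Nat.lt_succ_of_lt hj) le_rfl
    let _ := sig (X := X) {j | j.1 < n + 1}
    have h : Measurable (fun p : (ℕ × X × ℕ → (X →₀ ℕ)) × (X →₀ ℕ) => step n p.2 p.1) :=
      measurable_from_prod_countable_left fun z =>
        meas_step (S := {j | j.1 < n + 1}) (fun _ _ => Nat.lt_succ_self n) z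
    exact h.comp (measurable_id.prodMk ih')

lemma meas_pop' (x : X) (n : ℕ) : Measurable (fun ξ : ℕ × X × ℕ → (X →₀ ℕ) => pop ξ x n) :=
  (meas_pop x n).mono (sig_le _) le_rfl

lemma meas_traj (x : X) (n : ℕ) : Measurable (traj x n) :=
  measurable_pi_lambda _ fun j => meas_pop' x (n + j)

omit [Countable X] [MeasurableSingletonClass (X →₀ ℕ)] in
lemma integrable_of_bdd (μ : X → PMF (X →₀ ℕ)) {f : (ℕ × X × ℕ → (X →₀ ℕ)) → ℝ}
    (hf : Measurable f) (h : ∀ ξ, 0 ≤ f ξ ∧ f ξ ≤ 1) : Integrable f (law μ) :=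
  Integrable.of_bound hf.aestronglyMeasurable 1 (Eventually.of_forall fun ξ => by
    rw [Real.norm_of_nonneg (h ξ).1]; exact (h ξ).2)

lemma integral_eval (μ : X → PMF (X →₀ ℕ)) {h : X → ℝ} (hh : Cube h) (j : ℕ × X × ℕ) :
    ∫ ξ, mono h (ξ j) ∂(law μ) = G μ h j.2.1 := by
  have h1 : (law μ).map (fun ξ => ξ j) = (μ j.2.1).toMeasure :=
    Measure.infinitePi_map_eval (fun j : ℕ × X × ℕ => (μ j.2.1).toMeasure) j
  rw [← integral_map (measurable_pi_apply j).aemeasurable
    (measurable_of_countable (mono h)).aestronglyMeasurable, h1, PMF.integral_eq_tsum]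
  · rfl
  · exact Integrable.of_bound (measurable_of_countable (mono h)).aestronglyMeasurable 1
      (Eventually.of_forall fun f => by
        rw [Real.norm_of_nonneg (mono_nonneg hh f)]; exact mono_le_one hh f)

lemma integral_step (μ : X → PMF (X →₀ ℕ)) {h : X → ℝ} (hh : Cube h) (n : ℕ) (z : X →₀ ℕ) :
    ∫ ξ, mono h (step n z ξ) ∂(law μ) = mono (G μ h) z := by
  classical
  let T : Finset (Σ _ : X, ℕ) := z.support.sigma fun y => Finset.range (z y)
  let g : T → ℕ × X × ℕ := fun a => (n, a.1.1, a.1.2)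
  have hg : Function.Injective g := by
    rintro ⟨⟨a, b⟩, hab⟩ ⟨⟨c, d⟩, hcd⟩ e
    simp only [g, Prod.mk.injEq, true_and] at e
    obtain ⟨rfl, rfl⟩ := e
    rfl
  have hi := (law_indep μ).precomp hg
  have key := hi.integral_fun_prod_comp (f := fun _ => mono h)
    (fun a => (measurable_pi_apply (g a)).aemeasurable)
    (fun a => (measurable_of_countable (mono h)).aestronglyMeasurable)
  have e1 : ∀ ξ : ℕ × X × ℕ → (X →₀ ℕ), mono h (step n z ξ) = ∏ a : T, mono h (ξ (g a)) := by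
    intro ξ
    unfold step Finsupp.sum
    rw [mono_sum, Finset.prod_coe_sort T (fun a => mono h (ξ (n, a.1, a.2))), Finset.prod_sigma]
    exact Finset.prod_congr rfl fun y _ => mono_sum _ _ _
  simp only [e1]
  rw [key]
  simp only [integral_eval μ hh]
  rw [Finset.prod_coe_sort T (fun a => G μ h a.1), Finset.prod_sigma]
  unfold mono Finsupp.prod
  exact Finset.prod_congr rfl fun y _ => by simp

lemma one_step (μ : X → PMF (X →₀ ℕ)) {h : X → ℝ} (hh : Cube h) (x : X) (n : ℕ)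
    {Y : (ℕ × X × ℕ → (X →₀ ℕ)) → ℝ} (hY : Measurable[sig {j | j.1 < n}] Y)
    (hY1 : ∀ ξ, 0 ≤ Y ξ ∧ Y ξ ≤ 1) :
    ∫ ξ, Y ξ * mono h (pop ξ x (n + 1)) ∂(law μ) =
      ∫ ξ, Y ξ * mono (G μ h) (pop ξ x n) ∂(law μ) := by
  have hYm : Measurable Y := hY.mono (sig_le _) le_rfl
  let A : (X →₀ ℕ) → Set (ℕ × X × ℕ → (X →₀ ℕ)) := fun z => {ξ | pop ξ x n = z}
  have hA' : ∀ z, MeasurableSet[sig {j | j.1 < n}] (A z) := fun z =>
    meas_pop x n (measurableSet_singleton z)
  have hA : ∀ z, MeasurableSet (A z) := fun z => sig_le _ _ (hA' z)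
  have hd : Pairwise (Function.onFun Disjoint A) := by
    intro a b hab
    rw [Function.onFun, Set.disjoint_left]
    intro ξ h1 h2
    exact hab (h1.symm.trans h2)
  have hU : (⋃ z, A z) = univ := eq_univ_of_forall fun ξ => mem_iUnion.2 ⟨_, rfl⟩
  have i1 : Integrable (fun ξ => Y ξ * mono h (pop ξ x (n + 1))) (law μ) :=
    integrable_of_bdd μ (hYm.mul ((measurable_of_countable (mono h)).comp (meas_pop' x (n + 1))))
      fun ξ => ⟨mul_nonneg (hY1 ξ).1 (mono_nonneg hh _),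
        mul_le_one₀ (hY1 ξ).2 (mono_nonneg hh _) (mono_le_one hh _)⟩
  have hG := G_cube μ hh
  have i2 : Integrable (fun ξ => Y ξ * mono (G μ h) (pop ξ x n)) (law μ) :=
    integrable_of_bdd μ (hYm.mul ((measurable_of_countable (mono (G μ h))).comp (meas_pop' x n)))
      fun ξ => ⟨mul_nonneg (hY1 ξ).1 (mono_nonneg hG _),
        mul_le_one₀ (hY1 ξ).2 (mono_nonneg hG _) (mono_le_one hG _)⟩
  have s1 := hasSum_integral_iUnion hA hd i1.integrableOn
  have s2 := hasSum_integral_iUnion hA hd i2.integrableOn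
  rw [hU, Measure.restrict_univ] at s1 s2
  have e : ∀ z, ∫ ξ in A z, Y ξ * mono h (pop ξ x (n + 1)) ∂(law μ) =
      ∫ ξ in A z, Y ξ * mono (G μ h) (pop ξ x n) ∂(law μ) := by
    intro z
    have hI : Measurable[sig {j | j.1 < n}] ((A z).indicator Y) := hY.indicator (hA' z)
    have hS : Measurable[sig {j | j.1 = n}] (fun ξ => mono h (step n z ξ)) :=
      (measurable_of_countable (mono h)).comp (meas_step (S := {j | j.1 = n}) (fun _ _ => rfl) z)
    have hdis : Disjoint {j : ℕ × X × ℕ | j.1 < n} {j | j.1 = n} := by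
      rw [Set.disjoint_left]
      intro j (h1 : j.1 < n) (h2 : j.1 = n)
      omega
    have hind : IndepFun ((A z).indicator Y) (fun ξ => mono h (step n z ξ)) (law μ) :=
      indep_of_indep_of_le (sig_indep μ hdis) hI.comap_le hS.comap_le
    have h3 := hind.integral_fun_mul_eq_mul_integral
      (hI.mono (sig_le _) le_rfl).aestronglyMeasurable
      (hS.mono (sig_le _) le_rfl).aestronglyMeasurable
    rw [integral_step μ hh, ← integral_mul_const] at h3
    rw [← integral_indicator (hA z), ← integral_indicator (hA z)]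
    refine Eq.trans ?_ (h3.trans ?_)
    · refine integral_congr_ae (Eventually.of_forall fun ξ => ?_)
      by_cases hξ : ξ ∈ A z
      · have hz : pop ξ x n = z := hξ
        simp only [indicator_of_mem hξ, pop_succ, hz]
      · simp only [indicator_of_notMem hξ, zero_mul]
    · refine integral_congr_ae (Eventually.of_forall fun ξ => ?_)
      by_cases hξ : ξ ∈ A z
      · have hz : pop ξ x n = z := hξ
        simp only [indicator_of_mem hξ, hz]
      · simp only [indicator_of_notMem hξ, zero_mul]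
  simp only [e] at s1
  exact s1.unique s2

lemma integral_pop (μ : X → PMF (X →₀ ℕ)) (x : X) (n : ℕ) : ∀ {h : X → ℝ}, Cube h →
    ∫ ξ, mono h (pop ξ x n) ∂(law μ) = (G μ)^[n] h x := by
  induction n with
  | zero => intro h _; simp [pop_zero, mono_single]
  | succ n ih =>
    intro h hh
    have := one_step μ hh x n (Y := fun _ => 1) measurable_const
      (fun _ => ⟨zero_le_one, le_rfl⟩)
    simp only [one_mul] at this
    rw [this, ih (G_cube μ hh), Function.iterate_succ_apply]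

/-- probability that the trajectory lies in `B` -/
noncomputable def pr (μ : X → PMF (X →₀ ℕ)) (B : Set (ℕ → (X →₀ ℕ))) (x : X) : ℝ :=
  (law μ).real (traj x 0 ⁻¹' B)

lemma pr_cube (μ : X → PMF (X →₀ ℕ)) (B : Set (ℕ → (X →₀ ℕ))) : Cube (pr μ B) := fun _ =>
  ⟨measureReal_nonneg, measureReal_le_one⟩

/-- branching and Markov property for the set of trajectories `B` -/
def GoodW (μ : X → PMF (X →₀ ℕ)) (B : Set (ℕ → (X →₀ ℕ))) (h : X → ℝ) : Prop :=
  MeasurableSet B ∧ Cube h ∧ ∀ (x : X) (n : ℕ) (Y : (ℕ × X × ℕ → (X →₀ ℕ)) → ℝ),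
    Measurable[sig {j | j.1 < n}] Y → (∀ ξ, 0 ≤ Y ξ ∧ Y ξ ≤ 1) →
    ∫ ξ, Y ξ * B.indicator 1 (traj x n ξ) ∂(law μ) = ∫ ξ, Y ξ * mono h (pop ξ x n) ∂(law μ)

lemma integral_ind (μ : X → PMF (X →₀ ℕ)) {B : Set (ℕ → (X →₀ ℕ))} (hB : MeasurableSet B)
    (x : X) (n : ℕ) :
    ∫ ξ, B.indicator (1 : (ℕ → (X →₀ ℕ)) → ℝ) (traj x n ξ) ∂(law μ) =
      (law μ).real (traj x n ⁻¹' B) := by
  rw [← integral_indicator_one (meas_traj x n hB)]
  rfl

lemma GoodW.eq_pr {μ : X → PMF (X →₀ ℕ)} {B : Set (ℕ → (X →₀ ℕ))} {h : X → ℝ}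
    (hg : GoodW μ B h) : h = pr μ B := by
  funext x
  have := hg.2.2 x 0 (fun _ => 1) measurable_const (fun _ => ⟨zero_le_one, le_rfl⟩)
  simp only [one_mul] at this
  rw [integral_ind μ hg.1, integral_pop μ x 0 hg.2.1] at this
  exact this.symm

lemma good_univ (μ : X → PMF (X →₀ ℕ)) : GoodW μ univ 1 := by
  refine ⟨MeasurableSet.univ, fun _ => ⟨zero_le_one, le_rfl⟩, fun x n Y _ _ => ?_⟩
  simp [mono_one]

/-- shift of a trajectory -/
def shift (z : ℕ → (X →₀ ℕ)) : ℕ → (X →₀ ℕ) := fun j => z (j + 1)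

lemma good_shift {μ : X → PMF (X →₀ ℕ)} {B : Set (ℕ → (X →₀ ℕ))} {h : X → ℝ}
    (hg : GoodW μ B h) : GoodW μ (shift ⁻¹' B) (G μ h) := by
  have hm : Measurable (shift (X := X)) := measurable_pi_lambda _ fun j => measurable_pi_apply _
  refine ⟨hm hg.1, G_cube μ hg.2.1, fun x n Y hY hY1 => ?_⟩
  rw [← one_step μ hg.2.1 x n hY hY1, ← hg.2.2 x (n + 1) Y
    (hY.mono (sig_mono fun j (hj : j.1 < n) => Nat.lt_succ_of_lt hj) le_rfl) hY1]
  refine integral_congr_ae (Eventually.of_forall fun ξ => ?_)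
  have : shift (traj x n ξ) = traj x (n + 1) ξ := by
    funext j; simp only [shift, traj]; congr 1; omega
  by_cases h1 : traj x (n + 1) ξ ∈ B
  · have h2 : traj x n ξ ∈ shift ⁻¹' B := by rw [mem_preimage, this]; exact h1
    simp only [indicator_of_mem h1, indicator_of_mem h2, Pi.one_apply]
  · have h2 : traj x n ξ ∉ shift ⁻¹' B := by rw [mem_preimage, this]; exact h1
    simp only [indicator_of_notMem h1, indicator_of_notMem h2]

/-- no individual with type in `F` -/
def Avoid (F : Set X) (f : X →₀ ℕ) : Prop := ∀ y ∈ F, f y = 0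

open Classical in
omit [MeasurableSpace (X →₀ ℕ)] [Countable X] [MeasurableSingletonClass (X →₀ ℕ)] in
lemma mono_chi (F : Set X) (f : X →₀ ℕ) : mono (chi F) f = if Avoid F f then 1 else 0 := by
  unfold mono Finsupp.prod
  split_ifs with hf
  · refine Finset.prod_eq_one fun y hy => ?_
    have : y ∉ F := fun h => (Finsupp.mem_support_iff.1 hy) (hf y h)
    simp [chi, this]
  · unfold Avoid at hf
    push Not at hf
    obtain ⟨y, hy, h0⟩ := hf
    refine Finset.prod_eq_zero (Finsupp.mem_support_iff.2 h0) ?_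
    simp [chi, hy, h0]

lemma meas_avoid (F : Set X) (j : ℕ) : MeasurableSet {z : ℕ → (X →₀ ℕ) | Avoid F (z j)} :=
  (measurable_pi_apply j : Measurable fun z : ℕ → (X →₀ ℕ) => z j)
    (Set.to_countable {f : X →₀ ℕ | Avoid F f}).measurableSet

lemma good_mask {μ : X → PMF (X →₀ ℕ)} {B : Set (ℕ → (X →₀ ℕ))} {h : X → ℝ}
    (hg : GoodW μ B h) (F : Set X) : GoodW μ ({z | Avoid F (z 0)} ∩ B) (chi F * h) := by
  classical
  have hm : MeasurableSet {z : ℕ → (X →₀ ℕ) | Avoid F (z 0)} := meas_avoid F 0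
  refine ⟨hm.inter hg.1, (chi_cube F).mul hg.2.1, fun x n Y hY hY1 => ?_⟩
  have := hg.2.2 x n (fun ξ => Y ξ * mono (chi F) (pop ξ x n))
    (hY.mul ((measurable_of_countable (mono (chi F))).comp (meas_pop x n)))
    (fun ξ => ⟨mul_nonneg (hY1 ξ).1 (mono_nonneg (chi_cube F) _),
      mul_le_one₀ (hY1 ξ).2 (mono_nonneg (chi_cube F) _) (mono_le_one (chi_cube F) _)⟩)
  simp only [mono_mul, ← mul_assoc]
  rw [← this]
  refine integral_congr_ae (Eventually.of_forall fun ξ => ?_)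
  have h0 : traj x n ξ 0 = pop ξ x n := rfl
  simp only [mono_chi, indicator, mem_inter_iff, mem_ofPred_eq, h0, Pi.one_apply]
  by_cases h1 : Avoid F (pop ξ x n) <;> by_cases h2 : traj x n ξ ∈ B <;> simp [h1, h2]

lemma good_lim {μ : X → PMF (X →₀ ℕ)} {B : ℕ → Set (ℕ → (X →₀ ℕ))} {h : ℕ → X → ℝ}
    (hg : ∀ k, GoodW μ (B k) (h k)) {C : Set (ℕ → (X →₀ ℕ))} (hC : MeasurableSet C)
    (hl : ∀ z, ∀ᶠ k in atTop, z ∈ B k ↔ z ∈ C) : GoodW μ C (pr μ C) := by
  have hp : ∀ y, Tendsto (fun k => h k y) atTop (𝓝 (pr μ C y)) := by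
    intro y
    have e : ∀ k, h k y = (law μ (traj y 0 ⁻¹' B k)).toReal := fun k => by
      rw [(hg k).eq_pr]; rfl
    simp only [e]
    refine (ENNReal.tendsto_toReal (measure_ne_top _ _)).comp ?_
    exact tendsto_measure_of_tendsto_indicator_of_isFiniteMeasure atTop (law μ)
      (fun k => meas_traj y 0 (hg k).1) (fun ξ => hl (traj y 0 ξ))
  refine ⟨hC, pr_cube μ C, fun x n Y hY hY1 => ?_⟩
  have hYm : Measurable Y := hY.mono (sig_le _) le_rfl
  have t1 : Tendsto (fun k => ∫ ξ, Y ξ * (B k).indicator 1 (traj x n ξ) ∂(law μ)) atTop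
      (𝓝 (∫ ξ, Y ξ * C.indicator 1 (traj x n ξ) ∂(law μ))) := by
    refine tendsto_integral_of_dominated_convergence (fun _ => 1) (fun k => ?_)
      (integrable_const _) (fun k => Eventually.of_forall fun ξ => ?_)
      (Eventually.of_forall fun ξ => ?_)
    · exact (hYm.mul ((measurable_one.indicator (hg k).1).comp
        (meas_traj x n))).aestronglyMeasurable
    · by_cases h1 : traj x n ξ ∈ B k
      · simp only [indicator_of_mem h1, Pi.one_apply, mul_one]
        rw [Real.norm_of_nonneg (hY1 ξ).1]; exact (hY1 ξ).2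
      · simp [indicator_of_notMem h1]
    · refine tendsto_const_nhds.congr' ?_
      filter_upwards [hl (traj x n ξ)] with k hk
      by_cases h1 : traj x n ξ ∈ C
      · simp only [indicator_of_mem h1, indicator_of_mem (hk.2 h1)]
      · simp only [indicator_of_notMem h1, indicator_of_notMem (fun h => h1 (hk.1 h))]
  have t2 : Tendsto (fun k => ∫ ξ, Y ξ * mono (h k) (pop ξ x n) ∂(law μ)) atTop
      (𝓝 (∫ ξ, Y ξ * mono (pr μ C) (pop ξ x n) ∂(law μ))) := by
    refine tendsto_integral_of_dominated_convergence (fun _ => 1) (fun k => ?_)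
      (integrable_const _) (fun k => Eventually.of_forall fun ξ => ?_)
      (Eventually.of_forall fun ξ => ?_)
    · exact (hYm.mul ((measurable_of_countable (mono (h k))).comp
        (meas_pop' x n))).aestronglyMeasurable
    · rw [Real.norm_of_nonneg (mul_nonneg (hY1 ξ).1 (mono_nonneg (hg k).2.1 _))]
      exact mul_le_one₀ (hY1 ξ).2 (mono_nonneg (hg k).2.1 _) (mono_le_one (hg k).2.1 _)
    · exact (mono_tendsto hp _).const_mul _
  refine tendsto_nhds_unique t1 ?_
  simp only [fun k => (hg k).2.2 x n Y hY hY1]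
  exact t2

lemma good_block (μ : X → PMF (X →₀ ℕ)) (F : Set X) (M : ℕ) :
    ∃ h, GoodW μ {z | ∀ j < M, Avoid F (z j)} h := by
  induction M with
  | zero => exact ⟨1, by simpa using good_univ μ⟩
  | succ M ih =>
    obtain ⟨h, hh⟩ := ih
    refine ⟨_, (show {z : ℕ → (X →₀ ℕ) | Avoid F (z 0)} ∩ 
      shift ⁻¹' {z : ℕ → (X →₀ ℕ) | ∀ j < M, Avoid F (z j)} =
      {z : ℕ → (X →₀ ℕ) | ∀ j < M + 1, Avoid F (z j)} from ?_) ▸ good_mask (good_shift hh) F⟩
    ext z
    simp only [mem_inter_iff, mem_ofPred_eq, mem_preimage, shift]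
    constructor
    · rintro ⟨h0, h1⟩ j hj
      cases j with
      | zero => exact h0
      | succ j => exact h1 j (by omega)
    · intro h1
      exact ⟨h1 0 (by omega), fun j hj => h1 (j + 1) (by omega)⟩

lemma good_never (μ : X → PMF (X →₀ ℕ)) (F : Set X) (N : ℕ) :
    ∃ h, GoodW μ {z | ∀ j, N ≤ j → Avoid F (z j)} h := by
  induction N with
  | zero =>
    choose h hh using good_block μ F
    refine ⟨_, good_lim hh ?_ fun z => ?_⟩
    · simp only [zero_le, forall_const, ofPred_forall]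
      exact MeasurableSet.iInter fun j => meas_avoid F j
    · by_cases hz : ∀ j, Avoid F (z j)
      · exact Eventually.of_forall fun k => ⟨fun _ j _ => hz j, fun _ j _ => hz j⟩
      · push Not at hz
        obtain ⟨j, hj⟩ := hz
        filter_upwards [eventually_gt_atTop j] with k hk
        exact ⟨fun h => absurd (h j hk) hj, fun h => absurd (h j (Nat.zero_le _)) hj⟩
  | succ N ih =>
    obtain ⟨h, hh⟩ := ih
    refine ⟨_, (show shift ⁻¹' {z : ℕ → (X →₀ ℕ) | ∀ j, N ≤ j → Avoid F (z j)} =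
      {z : ℕ → (X →₀ ℕ) | ∀ j, N + 1 ≤ j → Avoid F (z j)} from ?_) ▸ good_shift hh⟩
    ext z
    simp only [mem_ofPred_eq, mem_preimage, shift]
    constructor
    · intro h1 j hj
      cases j with
      | zero => omega
      | succ j => exact h1 j (by omega)
    · intro h1 j hj
      exact h1 (j + 1) (by omega)

lemma good_ev (μ : X → PMF (X →₀ ℕ)) (F : Set X) :
    ∃ h, GoodW μ {z | ∃ N, ∀ j, N ≤ j → Avoid F (z j)} h := by
  choose h hh using good_never μ F
  refine ⟨_, good_lim hh ?_ fun z => ?_⟩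
  · rw [ofPred_exists]
    exact MeasurableSet.iUnion fun N => (hh N).1
  · by_cases hz : ∃ N, ∀ j, N ≤ j → Avoid F (z j)
    · obtain ⟨N, hN⟩ := hz
      filter_upwards [eventually_ge_atTop N] with k hk
      exact ⟨fun _ => ⟨N, hN⟩, fun _ j hj => hN j (hk.trans hj)⟩
    · exact Eventually.of_forall fun k => ⟨fun h => absurd ⟨k, h⟩ hz, fun h => absurd h hz⟩

/-- partial extinction -/
def PE : Set (ℕ → (X →₀ ℕ)) := {z | ∀ y, {n | z n y ≠ 0}.Finite}

omit [MeasurableSpace (X →₀ ℕ)] [Countable X] [MeasurableSingletonClass (X →₀ ℕ)] in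
lemma PE_ev {z : ℕ → (X →₀ ℕ)} (hz : z ∈ PE) {F : Set X} (hF : F.Finite) :
    ∃ N, ∀ j, N ≤ j → Avoid F (z j) := by
  have : (⋃ y ∈ F, {n | z n y ≠ 0}).Finite := hF.biUnion fun y _ => hz y
  obtain ⟨N, hN⟩ := this.bddAbove
  refine ⟨N + 1, fun j hj y hy => ?_⟩
  by_contra h
  have := hN (mem_biUnion hy (show j ∈ {n | z n y ≠ 0} from h))
  omega

lemma good_PE (μ : X → PMF (X →₀ ℕ)) : GoodW μ PE (pr μ PE) := by
  obtain ⟨e, he⟩ := Countable.exists_injective_nat X
  have hfin : ∀ k, {y | e y < k}.Finite := fun k => (Set.finite_lt_nat k).preimage he.injOn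
  choose h hh using fun k => good_ev μ {y | e y < k}
  have hback : ∀ z : ℕ → (X →₀ ℕ), ∀ y k, e y < k →
      (∃ N, ∀ j, N ≤ j → Avoid {y | e y < k} (z j)) → {n | z n y ≠ 0}.Finite := by
    rintro z y k hk ⟨N, hN⟩
    refine (Set.finite_lt_nat N).subset fun n hn => ?_
    by_contra h1
    exact hn (hN n (not_lt.1 h1) y hk)
  refine good_lim hh ?_ fun z => ?_
  · have : PE = ⋂ k, {z : ℕ → (X →₀ ℕ) | ∃ N, ∀ j, N ≤ j → Avoid {y | e y < k} (z j)} := by
      ext z
      rw [mem_iInter]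
      exact ⟨fun hz k => PE_ev hz (hfin k), fun hz y => hback z y _ (Nat.lt_succ_self _) (hz _)⟩
    rw [this]
    exact MeasurableSet.iInter fun k => (hh k).1
  · by_cases hz : z ∈ PE
    · exact Eventually.of_forall fun k => ⟨fun _ => hz, fun _ => PE_ev hz (hfin k)⟩
    · have : ∃ y, ¬ {n | z n y ≠ 0}.Finite := not_forall.1 hz
      obtain ⟨y, hy⟩ := this
      filter_upwards [eventually_gt_atTop (e y)] with k hk
      exact ⟨fun h => absurd (hback z y k hk h) hy, fun h => absurd h hz⟩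

omit [Countable X] [MeasurableSingletonClass (X →₀ ℕ)] in
lemma qt_eq (μ : X → PMF (X →₀ ℕ)) : qt μ = pr μ PE := by
  funext x
  unfold qt pr
  congr 1
  ext ξ
  simp [PE, traj]

omit [MeasurableSpace (X →₀ ℕ)] [Countable X] [MeasurableSingletonClass (X →₀ ℕ)] in
lemma traj_PE (x : X) (n : ℕ) (ξ : ℕ × X × ℕ → (X →₀ ℕ)) :
    traj x n ξ ∈ PE ↔ traj x 0 ξ ∈ PE := by
  simp only [PE, traj, mem_ofPred_eq, zero_add]
  refine forall_congr' fun y => ⟨fun h => ?_, fun h => ?_⟩
  · refine ((Set.finite_lt_nat n).union (h.image fun j => n + j)).subset fun j hj => ?_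
    by_cases h1 : j < n
    · exact Or.inl h1
    · refine Or.inr ⟨j - n, ?_, by simp only; omega⟩
      have : n + (j - n) = j := by omega
      simp only [mem_ofPred_eq, this]
      exact hj
  · exact h.preimage (f := fun j => n + j) (add_right_injective n).injOn

lemma iter_qt (μ : X → PMF (X →₀ ℕ)) (F : Set X) (x : X) (n : ℕ) :
    (G μ)^[n] (chi F * qt μ) x =
      (law μ).real ({ξ | Avoid F (pop ξ x n)} ∩ traj x 0 ⁻¹' PE) := by
  have hg := good_mask (good_PE μ) F
  have := hg.2.2 x n (fun _ => 1) measurable_const (fun _ => ⟨zero_le_one, le_rfl⟩)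
  simp only [one_mul] at this
  rw [integral_ind μ hg.1, integral_pop μ x n hg.2.1] at this
  rw [qt_eq, ← this]
  congr 1
  ext ξ
  simp only [mem_preimage, mem_inter_iff, mem_ofPred_eq, traj_PE x n ξ]
  rfl

lemma G_qt (μ : X → PMF (X →₀ ℕ)) : G μ (qt μ) = qt μ := by
  funext x
  have := iter_qt μ ∅ x 1
  have e : chi (∅ : Set X) = 1 := by funext y; simp [chi]
  rw [e, one_mul] at this
  refine this.trans ?_
  rw [qt_eq]
  simp [Avoid, pr]

lemma tendsto_qt (μ : X → PMF (X →₀ ℕ)) {F : Set X} (hF : F.Finite) (x : X) :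
    Tendsto (fun n => (G μ)^[n] (chi F * qt μ) x) atTop (𝓝 (qt μ x)) := by
  simp only [iter_qt]
  rw [qt_eq]
  refine (ENNReal.tendsto_toReal (measure_ne_top _ _)).comp ?_
  refine tendsto_measure_of_tendsto_indicator_of_isFiniteMeasure atTop (law μ)
    (fun n => (meas_pop' x n (Set.to_countable {f : X →₀ ℕ | Avoid F f}).measurableSet).inter
      (meas_traj x 0 (good_PE μ).1)) (fun ξ => ?_)
  by_cases hξ : traj x 0 ξ ∈ PE
  · obtain ⟨N, hN⟩ := PE_ev hξ hF
    filter_upwards [eventually_ge_atTop N] with n hn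
    refine ⟨fun h => h.2, fun h => ⟨?_, h⟩⟩
    have := hN n hn
    simpa [traj] using this
  · exact Eventually.of_forall fun n => ⟨fun h => h.2, fun h => absurd h hξ⟩

omit [MeasurableSpace (X →₀ ℕ)] [Countable X] [MeasurableSingletonClass (X →₀ ℕ)] in
lemma pop_dead (ξ : ℕ × X × ℕ → (X →₀ ℕ)) (x : X) {N : ℕ} (h : pop ξ x N = 0) (n : ℕ)
    (hn : N ≤ n) : pop ξ x n = 0 := by
  induction n, hn using Nat.le_induction with
  | base => exact h
  | succ n _ ih => rw [pop_succ, ih]; simp [step]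

lemma iter_zero (μ : X → PMF (X →₀ ℕ)) (x : X) (n : ℕ) :
    (G μ)^[n] 0 x = (law μ).real {ξ | pop ξ x n = 0} := by
  classical
  have e : (0 : X → ℝ) = chi univ := by funext y; simp [chi]
  have hm : MeasurableSet {ξ : ℕ × X × ℕ → (X →₀ ℕ) | pop ξ x n = 0} :=
    meas_pop' x n (measurableSet_singleton 0)
  rw [← integral_pop μ x n cube_zero, e, ← integral_indicator_one hm]
  refine integral_congr_ae (Eventually.of_forall fun ξ => ?_)
  have : Avoid univ (pop ξ x n) ↔ pop ξ x n = 0 := by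
    simp [Avoid, Finsupp.ext_iff]
  by_cases h1 : pop ξ x n = 0
  · have h2 : ξ ∈ {ξ : ℕ × X × ℕ → (X →₀ ℕ) | pop ξ x n = 0} := h1
    simp only [mono_chi, indicator_of_mem h2, if_pos (this.2 h1), Pi.one_apply]
  · have h2 : ξ ∉ {ξ : ℕ × X × ℕ → (X →₀ ℕ) | pop ξ x n = 0} := h1
    simp only [mono_chi, indicator_of_notMem h2, if_neg (fun h => h1 (this.1 h))]

lemma tendsto_q (μ : X → PMF (X →₀ ℕ)) (x : X) :
    Tendsto (fun n => (G μ)^[n] 0 x) atTop (𝓝 (q μ x)) := by
  simp only [iter_zero]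
  refine (ENNReal.tendsto_toReal (measure_ne_top _ _)).comp ?_
  refine tendsto_measure_of_tendsto_indicator_of_isFiniteMeasure atTop (law μ)
    (fun n => meas_pop' x n (measurableSet_singleton 0)) (fun ξ => ?_)
  by_cases hξ : ∃ N, ∀ n, N ≤ n → pop ξ x n = 0
  · obtain ⟨N, hN⟩ := hξ
    filter_upwards [eventually_ge_atTop N] with n hn
    exact ⟨fun _ => ⟨N, hN⟩, fun _ => hN n hn⟩
  · exact Eventually.of_forall fun n =>
      ⟨fun h => absurd ⟨n, pop_dead ξ x h⟩ hξ, fun h => absurd h hξ⟩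

lemma iter_zero_le (μ : X → PMF (X →₀ ℕ)) (x : X) (n : ℕ) : (G μ)^[n] 0 x ≤ q μ x := by
  rw [iter_zero]
  exact measureReal_mono (fun ξ h => ⟨n, pop_dead ξ x h⟩) (measure_ne_top _ _)

lemma q_le (μ : X → PMF (X →₀ ℕ)) {s : X → ℝ} (hs : Cube s) (h : G μ s ≤ s) : q μ ≤ s :=
  fun x => le_of_tendsto' (tendsto_q μ x) fun n =>
    (iter_mono μ cube_zero hs (fun y => (hs y).1) n x).trans (iter_le μ hs h n x)

theorem exists_fixed (μ : X → PMF (X →₀ ℕ)) (x : X) {c : ℝ} (h0 : q μ x ≤ c) (h1 : c ≤ qt μ x) :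
    ∃ s : X → ℝ, Cube s ∧ G μ s = s ∧ q μ ≤ s ∧ s ≤ qt μ ∧ s x = c := by
  have hc : Cube (qt μ) := by rw [qt_eq]; exact pr_cube μ _
  obtain ⟨s, hs, h2, h3, h4⟩ := global_fixed μ hc (G_qt μ).le x
    (fun F => tendsto_qt μ F.finite_toSet x) (fun n => (iter_zero_le μ x n).trans h0) h1
  exact ⟨s, hs, h4, q_le μ hs h4.le, h2, h3⟩

end Pool.Agent.H917Z.GW
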